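import Mathlib
import Pool.Agent.Y552.CT.Stm4

/-!
# Orders of solvable permutation groups

A finite solvable group acting faithfully on a nonempty finite set with `s` elements has at most
`5 ^ (s - 1)` elements.
-/

set_option autoImplicit false

namespace Pool.Agent.Y759.CT

open Subgroup

theorem double_card {G : Type*} [Group G] [Finite G] {K K' : Subgroup G} (h : K < K') :
    2 * Nat.card K ≤ Nat.card K' := by
  obtain ⟨c, hc⟩ := Subgroup.card_dvd_of_le h.le
  have h1 : 0 < Nat.card K' := Nat.card_pos
  have h2 : c ≠ 0 := by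
    rintro rfl
    omega
  have h3 : c ≠ 1 := by
    rintro rfl
    rw [mul_one] at hc
    exact h.ne (Subgroup.eq_of_le_of_card_ge h.le hc.le)
  have h4 : 2 ≤ c := by omega
  rw [hc, mul_comm]
  exact Nat.mul_le_mul_left _ h4

theorem exists_gens (N : Type*) [Group N] [Finite N] :
    ∃ S : Finset N, Subgroup.closure (S : Set N) = ⊤ ∧ 2 ^ S.card ≤ Nat.card N := by
  classical
  have key : ∀ k : ℕ, (∃ S : Finset N, S.card = k ∧
      2 ^ k ≤ Nat.card (Subgroup.closure (S : Set N))) ∨
      ∃ S : Finset N, Subgroup.closure (S : Set N) = ⊤ ∧ 2 ^ S.card ≤ Nat.card N := by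
    intro k
    induction k with
    | zero =>
      left
      refine ⟨∅, rfl, ?_⟩
      rw [pow_zero]
      exact Nat.card_pos
    | succ k ih =>
      rcases ih with ⟨S, hS1, hS2⟩ | h
      · by_cases htop : Subgroup.closure (S : Set N) = ⊤
        · right
          refine ⟨S, htop, ?_⟩
          rw [htop, Subgroup.card_top] at hS2
          rwa [hS1]
        · left
          obtain ⟨g, hg⟩ : ∃ g, g ∉ Subgroup.closure (S : Set N) := by
            by_contra hcon
            push Not at hcon
            exact htop (eq_top_iff.2 fun x _ => hcon x)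
          have hgS : g ∉ S := fun h => hg (Subgroup.subset_closure h)
          refine ⟨insert g S, by rw [Finset.card_insert_of_notMem hgS, hS1], ?_⟩
          have hlt : Subgroup.closure (S : Set N) < Subgroup.closure ((insert g S : Finset N) : Set N) := by
            refine lt_of_le_of_ne (Subgroup.closure_mono ?_) ?_
            · rw [Finset.coe_insert]
              exact Set.subset_insert _ _
            · intro h
              apply hg
              rw [h]
              apply Subgroup.subset_closure
              rw [Finset.coe_insert]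
              exact Set.mem_insert _ _
          have := double_card hlt
          rw [pow_succ]
          omega
      · exact Or.inr h
  rcases key (Nat.card N) with ⟨S, _, hS2⟩ | h
  · exfalso
    have h1 : Nat.card (Subgroup.closure (S : Set N)) ≤ Nat.card N := Subgroup.card_le_card_group _
    have h2 : Nat.card N < 2 ^ Nat.card N := Nat.lt_two_pow_self
    omega
  · exact h

theorem exists_abelian_normal (Q : Type*) [Group Q] [Group.IsSolvable Q] [Nontrivial Q] :
    ∃ N : Subgroup Q, N.Normal ∧ N ≠ ⊥ ∧ ∀ a ∈ N, ∀ b ∈ N, a * b = b * a := by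
  classical
  have hs : ∃ n, derivedSeries Q n = ⊥ := Group.IsSolvable.solvable
  have h0 : Nat.find hs ≠ 0 := by
    intro h
    have h1 := Nat.find_spec hs
    rw [h, derivedSeries_zero] at h1
    exact top_ne_bot h1
  obtain ⟨k, hk⟩ := Nat.exists_eq_succ_of_ne_zero h0
  refine ⟨derivedSeries Q k, derivedSeries_normal Q k, ?_, ?_⟩
  · intro h
    have := Nat.find_min' hs h
    omega
  · have h1 := Nat.find_spec hs
    rw [hk, Nat.succ_eq_add_one, derivedSeries_succ, Subgroup.commutator_eq_bot_iff_le_centralizer] at h1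
    intro a ha b hb
    exact (Subgroup.mem_centralizer_iff.1 (h1 ha) b hb).symm

/-- the primitive case -/
theorem prim {Q : Type*} [Group Q] [Finite Q] [Group.IsSolvable Q] (M : Subgroup Q) (hM : IsCoatom M)
    (hcore : M.normalCore = ⊥) : Nat.card Q ≤ M.index ^ (1 + Nat.log 2 M.index) := by
  have hnt : Nontrivial Q := by
    by_contra h
    rw [not_nontrivial_iff_subsingleton] at h
    exact hM.1 (Subsingleton.elim _ _)
  obtain ⟨N, hN, hN0, hNab⟩ := exists_abelian_normal Q
  have hcoreN : ∀ K : Subgroup Q, K.Normal → K ≤ M → K = ⊥ := by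
    intro K hK hKM
    have h1 : K ≤ M.normalCore := (Subgroup.normal_le_normalCore).2 hKM
    rw [hcore] at h1
    exact le_bot_iff.1 h1
  have hNM : ¬ N ≤ M := fun h => hN0 (hcoreN N hN h)
  have hsup : N ⊔ M = ⊤ := by
    rw [sup_comm]
    exact hM.2 _ (left_lt_sup.2 hNM)
  have hdec : ∀ g : Q, ∃ a ∈ N, ∃ m ∈ M, a * m = g := by
    intro g
    have h1 : g ∈ ((N ⊔ M : Subgroup Q) : Set Q) := by
      rw [hsup]
      exact Set.mem_univ g
    rw [Subgroup.normal_mul] at h1
    obtain ⟨a, ha, m, hm, h⟩ := Set.mem_mul.1 h1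
    exact ⟨a, ha, m, hm, h⟩
  have hinf : N ⊓ M = ⊥ := by
    apply hcoreN _ _ inf_le_right
    constructor
    intro z hz g
    obtain ⟨a, ha, m, hm, rfl⟩ := hdec g
    have h1 : m * z * m⁻¹ ∈ N ⊓ M :=
      ⟨hN.conj_mem z hz.1 m, M.mul_mem (M.mul_mem hm hz.2) (M.inv_mem hm)⟩
    have h2 : a * m * z * (a * m)⁻¹ = a * (m * z * m⁻¹) * a⁻¹ := by group
    rw [h2, hNab a ha _ h1.1, mul_assoc, mul_inv_cancel, mul_one]
    exact h1
  have hC : ∀ m ∈ M, (∀ a ∈ N, m * a = a * m) → m = 1 := by
    have h1 : (Subgroup.centralizer (N : Set Q) ⊓ M) = ⊥ := by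
      apply hcoreN _ _ inf_le_right
      constructor
      intro z hz g
      obtain ⟨a, ha, m, hm, rfl⟩ := hdec g
      have h1 : m * z * m⁻¹ ∈ Subgroup.centralizer (N : Set Q) ⊓ M := by
        refine Subgroup.mem_inf.2 ⟨?_, M.mul_mem (M.mul_mem hm hz.2) (M.inv_mem hm)⟩
        rw [Subgroup.mem_centralizer_iff]
        intro b hb
        have h3 := Subgroup.mem_centralizer_iff.1 hz.1 (m⁻¹ * b * m)
          (by simpa using hN.conj_mem b hb m⁻¹)
        calc b * (m * z * m⁻¹) = m * ((m⁻¹ * b * m) * z) * m⁻¹ := by group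
          _ = m * (z * (m⁻¹ * b * m)) * m⁻¹ := by rw [h3]
          _ = _ := by group
      have h2 : a * m * z * (a * m)⁻¹ = a * (m * z * m⁻¹) * a⁻¹ := by group
      rw [h2, Subgroup.mem_centralizer_iff.1 h1.1 a ha, mul_assoc, mul_inv_cancel, mul_one]
      exact h1
    intro m hm hma
    have h2 : m ∈ (Subgroup.centralizer (N : Set Q) ⊓ M) :=
      ⟨Subgroup.mem_centralizer_iff.2 fun a ha => (hma a ha).symm, hm⟩
    rw [h1] at h2
    exact h2
  have hcomp : Subgroup.IsComplement' N M := by
    apply Subgroup.isComplement'_of_disjoint_and_mul_eq_univ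
    · exact disjoint_iff.2 hinf
    · rw [← Subgroup.normal_mul, hsup]
      rfl
  have hidx : M.index = Nat.card N := hcomp.index_eq_card
  have hcard : Nat.card N * Nat.card M = Nat.card Q := hcomp.card_mul_card
  obtain ⟨S, hS1, hS2⟩ := exists_gens N
  have hMle : Nat.card M ≤ Nat.card N ^ S.card := by
    have hinj : Function.Injective (fun (m : M) (s : S) =>
        (⟨(m : Q) * (s.1 : Q) * (m : Q)⁻¹, hN.conj_mem _ s.1.2 m⟩ : N)) := by
      intro m m' h
      have h1 : ∀ a : N, ((m'⁻¹ * m : M) : Q) * a = a * ((m'⁻¹ * m : M) : Q) := by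
        have h2 : (⊤ : Subgroup N) ≤ (Subgroup.centralizer {((m'⁻¹ * m : M) : Q)}).comap N.subtype := by
          rw [← hS1, Subgroup.closure_le]
          intro s hs
          rw [SetLike.mem_coe, Subgroup.mem_comap, Subgroup.mem_centralizer_iff]
          intro x hx
          rw [Set.mem_singleton_iff] at hx
          subst hx
          have h3 := congrFun h ⟨s, hs⟩
          have h4 : (m : Q) * (s : Q) * (m : Q)⁻¹ = (m' : Q) * (s : Q) * (m' : Q)⁻¹ :=
            congrArg Subtype.val h3
          rw [Subgroup.coe_mul, Subgroup.coe_inv]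
          calc (m' : Q)⁻¹ * m * (N.subtype s) = (m' : Q)⁻¹ * ((m : Q) * (s : Q) * (m : Q)⁻¹) * m := by
                rw [Subgroup.coe_subtype]
                group
            _ = (m' : Q)⁻¹ * ((m' : Q) * (s : Q) * (m' : Q)⁻¹) * m := by rw [h4]
            _ = _ := by
                rw [Subgroup.coe_subtype]
                group
        intro a
        have h5 := h2 (Subgroup.mem_top a)
        rw [Subgroup.mem_comap, Subgroup.mem_centralizer_iff] at h5
        exact h5 _ (Set.mem_singleton _)
      have h6 := hC _ (m'⁻¹ * m : M).2 (fun a ha => h1 ⟨a, ha⟩)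
      have h7 : m'⁻¹ * m = 1 := Subtype.ext h6
      exact (inv_mul_eq_one.1 h7).symm
    have h8 := Nat.card_le_card_of_injective _ hinj
    rw [Nat.card_fun] at h8
    simpa using h8
  have hpos : 0 < Nat.card N := Nat.card_pos
  have hlog : S.card ≤ Nat.log 2 (Nat.card N) := by
    exact Nat.le_log_of_pow_le (by norm_num) hS2
  rw [hidx, ← hcard, pow_add, pow_one]
  exact Nat.mul_le_mul_left _ (hMle.trans (Nat.pow_le_pow_right hpos hlog))

theorem num_small (b : ℕ) (h1 : 2 ≤ b) (h2 : b ≤ 15) : b ^ (1 + Nat.log 2 b) ≤ 5 ^ (b - 1) := by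
  interval_cases b <;> decide +kernel

theorem num_k (k : ℕ) (hk : 4 ≤ k) : (k + 1) ^ 2 ≤ 2 * (2 ^ k - 1) := by
  induction k, hk using Nat.le_induction with
  | base => norm_num
  | succ k hk ih =>
    rw [pow_succ 2 k]
    have h1 : 16 ≤ 2 ^ k := by
      calc 16 = 2 ^ 4 := by norm_num
        _ ≤ 2 ^ k := Nat.pow_le_pow_right (by norm_num) hk
    have h2 : (k + 1 + 1) ^ 2 = (k + 1) ^ 2 + 2 * (k + 1) + 1 := by ring
    have h3 : 2 * (k + 1) + 1 ≤ (k + 1) ^ 2 := by nlinarith
    omega

theorem num (b : ℕ) (h1 : 2 ≤ b) : b ^ (1 + Nat.log 2 b) ≤ 5 ^ (b - 1) := by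
  by_cases h2 : b ≤ 15
  · exact num_small b h1 h2
  · have h3 : 4 ≤ Nat.log 2 b := by
      exact Nat.le_log_of_pow_le (by norm_num) (by omega)
    have h4 : b < 2 ^ (Nat.log 2 b + 1) := Nat.lt_pow_succ_log_self (by norm_num) b
    have h5 : 2 ^ Nat.log 2 b ≤ b := Nat.pow_log_le_self 2 (by omega)
    calc b ^ (1 + Nat.log 2 b) ≤ (2 ^ (Nat.log 2 b + 1)) ^ (1 + Nat.log 2 b) :=
          Nat.pow_le_pow_left h4.le _
      _ = 2 ^ ((Nat.log 2 b + 1) ^ 2) := by
          rw [← pow_mul]
          congr 1
          ring
      _ ≤ 2 ^ (2 * (2 ^ Nat.log 2 b - 1)) := Nat.pow_le_pow_right (by norm_num) (num_k _ h3)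
      _ ≤ 2 ^ (2 * (b - 1)) := Nat.pow_le_pow_right (by norm_num) (by omega)
      _ = 4 ^ (b - 1) := by rw [pow_mul]; norm_num
      _ ≤ 5 ^ (b - 1) := Nat.pow_le_pow_left (by norm_num) _

/-! ### the induction -/

section restr

variable {G X : Type*} [Group G] [MulAction G X]

/-- the action on an invariant subset -/
@[instance_reducible]
def subAct (p : X → Prop) (hp : ∀ (g : G) (x : X), p x → p (g • x)) : MulAction G {x // p x} where
  smul g x := ⟨g • x.1, hp g x.1 x.2⟩
  one_smul x := Subtype.ext (one_smul G x.1)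
  mul_smul g h x := Subtype.ext (mul_smul g h x.1)

/-- the homomorphism to the permutations of an invariant subset -/
def restr (p : X → Prop) (hp : ∀ (g : G) (x : X), p x → p (g • x)) : G →* Equiv.Perm {x // p x} :=
  @MulAction.toPermHom G _ _ (subAct p hp)

theorem restr_apply (p : X → Prop) (hp : ∀ (g : G) (x : X), p x → p (g • x)) (g : G)
    (x : {x // p x}) : (restr p hp g x).1 = g • x.1 := rfl

end restr

theorem card_le_mul {G H1 H2 : Type*} [Group G] [Group H1] [Group H2] [Finite H1] [Finite H2]
    (f : G →* H1) (g : G →* H2) (h : ∀ x, f x = 1 → g x = 1 → x = 1) :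
    Nat.card G ≤ Nat.card f.range * Nat.card g.range := by
  rw [← Nat.card_prod]
  apply Nat.card_le_card_of_injective (fun x => (f.rangeRestrict x, g.rangeRestrict x))
  intro x y hxy
  have h1 : f x = f y := congrArg (fun z => (z.1 : H1)) hxy
  have h2 : g x = g y := congrArg (fun z => (z.2 : H2)) hxy
  have h3 := h (y⁻¹ * x) (by rw [map_mul, map_inv, h1, inv_mul_cancel])
    (by rw [map_mul, map_inv, h2, inv_mul_cancel])
  exact (inv_mul_eq_one.1 h3).symm

theorem card_le_prod {G ι : Type*} [Group G] [Fintype ι] (H : ι → Type*) [∀ i, Group (H i)]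
    [∀ i, Finite (H i)] (f : ∀ i, G →* H i) (h : ∀ x, (∀ i, f i x = 1) → x = 1) :
    Nat.card G ≤ ∏ i, Nat.card (f i).range := by
  rw [← Nat.card_pi]
  apply Nat.card_le_card_of_injective (fun x i => (f i).rangeRestrict x)
  intro x y hxy
  have h1 : ∀ i, f i x = f i y := fun i => congrArg Subtype.val (congrFun hxy i)
  have h3 := h (y⁻¹ * x) (fun i => by rw [map_mul, map_inv, h1, inv_mul_cancel])
  exact (inv_mul_eq_one.1 h3).symm

/-- the quotient by the normal core of a maximal subgroup -/
theorem quot_bd {T : Type*} [Group T] [Finite T] [Group.IsSolvable T] (M : Subgroup T)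
    (hM : IsCoatom M) : Nat.card (T ⧸ M.normalCore) ≤ 5 ^ (M.index - 1) := by
  set L := M.normalCore with hL
  have hLM : L ≤ M := Subgroup.normalCore_le M
  have hsurj : Function.Surjective (QuotientGroup.mk' L) := QuotientGroup.mk'_surjective L
  have hcomap : (M.map (QuotientGroup.mk' L)).comap (QuotientGroup.mk' L) = M := by
    rw [Subgroup.comap_map_eq, QuotientGroup.ker_mk']
    exact sup_eq_left.2 hLM
  have hidx : (M.map (QuotientGroup.mk' L)).index = M.index := by
    have h1 := Subgroup.index_comap_of_surjective (M.map (QuotientGroup.mk' L)) hsurj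
    rw [hcomap] at h1
    exact h1.symm
  have hco : IsCoatom (M.map (QuotientGroup.mk' L)) := by
    constructor
    · intro h
      rw [h, Subgroup.comap_top] at hcomap
      exact hM.1 hcomap.symm
    · intro K hK
      have h1 : M < K.comap (QuotientGroup.mk' L) := by
        refine lt_of_le_of_ne ?_ ?_
        · exact hcomap.symm.le.trans (Subgroup.comap_mono hK.le)
        · intro h
          apply hK.ne
          apply Subgroup.comap_injective hsurj
          exact hcomap.trans h
      have h2 := hM.2 _ h1
      apply Subgroup.comap_injective hsurj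
      rw [h2, Subgroup.comap_top]
  have hcore : (M.map (QuotientGroup.mk' L)).normalCore = ⊥ := by
    rw [eq_bot_iff]
    intro z hz
    obtain ⟨t, rfl⟩ := hsurj z
    have h1 : ((M.map (QuotientGroup.mk' L)).normalCore).comap (QuotientGroup.mk' L) ≤ L := by
      exact Subgroup.normal_le_normalCore.2
        ((Subgroup.comap_mono (Subgroup.normalCore_le _)).trans hcomap.le)
    have h2 : t ∈ L := h1 hz
    rw [Subgroup.mem_bot]
    exact (QuotientGroup.eq_one_iff t).2 h2
  have h3 := prim (M.map (QuotientGroup.mk' L)) hco hcore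
  rw [hidx] at h3
  refine h3.trans (num _ ?_)
  have h4 : M.index ≠ 0 := Subgroup.index_ne_zero_of_finite
  have h5 : M.index ≠ 1 := fun h => hM.1 (Subgroup.index_eq_one.1 h)
  omega

universe v

theorem perm_bd (s : ℕ) : ∀ (X : Type v) [Finite X] [Nonempty X], Nat.card X = s →
    ∀ (T : Subgroup (Equiv.Perm X)), Group.IsSolvable T → Nat.card T ≤ 5 ^ (s - 1) := by
  induction s using Nat.strong_induction_on with
  | _ s ih =>
  intro X _ _ hs T hT
  classical
  -- the induction hypothesis for homomorphisms
  have IH : ∀ (Y : Type v) [Finite Y] [Nonempty Y], Nat.card Y < s → ∀ (G : Type v) [Group G]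
      [Group.IsSolvable G] (f : G →* Equiv.Perm Y), Nat.card f.range ≤ 5 ^ (Nat.card Y - 1) := by
    intro Y _ _ hY G _ _ f
    exact ih _ hY Y rfl f.range
      (Group.isSolvable_of_surjective (f := f.rangeRestrict) f.rangeRestrict_surjective)
  have hs1 : 0 < Nat.card X := Nat.card_pos
  by_cases htr : ∀ x y : X, ∃ t : T, t • x = y
  · obtain ⟨x⟩ := (inferInstance : Nonempty X)
    by_cases hs2 : s ≤ 1
    · have h1 : Nat.card X = 1 := by omega
      have h2 : Subsingleton X := (Nat.card_eq_one_iff_unique.1 h1).1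
      have h3 : Subsingleton T := inferInstance
      have h4 : Nat.card T ≤ 1 := Finite.card_le_one_iff_subsingleton.2 h3
      exact h4.trans (Nat.one_le_pow _ _ (by norm_num))
    · have hH : MulAction.stabilizer T x ≠ ⊤ := by
        intro h
        apply hs2
        rw [← hs]
        apply Finite.card_le_one_iff_subsingleton.2
        constructor
        intro y z
        obtain ⟨t, ht⟩ := htr x y
        obtain ⟨u, hu⟩ := htr x z
        have h1 : t ∈ MulAction.stabilizer T x := h ▸ Subgroup.mem_top t
        have h2 : u ∈ MulAction.stabilizer T x := h ▸ Subgroup.mem_top u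
        rw [← ht, ← hu, MulAction.mem_stabilizer_iff.1 h1, MulAction.mem_stabilizer_iff.1 h2]
      obtain ⟨M, hM, hHM⟩ := (eq_top_or_exists_le_coatom (MulAction.stabilizer T x)).resolve_left hH
      choose τ hτ using fun y => htr x y
      set f : X → T ⧸ M := fun y => (τ y : T ⧸ M) with hf
      have hfx : ∀ t : T, f (t • x) = (t : T ⧸ M) := by
        intro t
        rw [hf]
        simp only
        rw [QuotientGroup.eq]
        apply hHM
        rw [MulAction.mem_stabilizer_iff, mul_smul, inv_smul_eq_iff]
        exact (hτ (t • x)).symm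
      have hfe : ∀ (t : T) (y : X), f (t • y) = t • f y := by
        intro t y
        obtain ⟨u, rfl⟩ := htr x y
        rw [← mul_smul, hfx, hfx]
        rfl
      have hLn : M.normalCore.Normal := Subgroup.normalCore_normal M
      have hLtriv : ∀ l ∈ M.normalCore, ∀ c : T ⧸ M, l • c = c := by
        intro l hl c
        obtain ⟨g, rfl⟩ := QuotientGroup.mk_surjective c
        change ((l * g : T) : T ⧸ M) = (g : T ⧸ M)
        rw [QuotientGroup.eq]
        have h1 : g⁻¹ * l⁻¹ * g⁻¹⁻¹ ∈ M.normalCore :=
          hLn.conj_mem l⁻¹ (M.normalCore.inv_mem hl) g⁻¹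
        have h2 : (l * g)⁻¹ * g = g⁻¹ * l⁻¹ * g⁻¹⁻¹ := by group
        rw [h2]
        exact Subgroup.normalCore_le M h1
      have hinv : ∀ (c : T ⧸ M) (l : M.normalCore) (y : X), f y = c → f (l • y) = c := by
        intro c l y hy
        have h1 : f ((l : T) • y) = (l : T) • f y := hfe _ _
        rw [hLtriv _ l.2, hy] at h1
        exact h1
      have : Fintype (T ⧸ M) := Fintype.ofFinite _
      have hne : ∀ c : T ⧸ M, Nonempty {y // f y = c} := by
        intro c
        obtain ⟨g, rfl⟩ := QuotientGroup.mk_surjective c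
        exact ⟨⟨g • x, hfx g⟩⟩
      have hcard : ∀ c : T ⧸ M, Nat.card {y // f y = c} =
          Nat.card {y // f y = ((1 : T) : T ⧸ M)} := by
        intro c
        obtain ⟨g, rfl⟩ := QuotientGroup.mk_surjective c
        refine Nat.card_congr ⟨fun y => ⟨g⁻¹ • y.1, ?_⟩, fun y => ⟨g • y.1, ?_⟩, ?_, ?_⟩
        · rw [hfe, y.2]
          change ((g⁻¹ * g : T) : T ⧸ M) = _
          rw [inv_mul_cancel]
        · rw [hfe, y.2]
          change ((g * 1 : T) : T ⧸ M) = _
          rw [mul_one]
        · intro y
          exact Subtype.ext (smul_inv_smul _ _)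
        · intro y
          exact Subtype.ext (inv_smul_smul _ _)
      have hsum : s = M.index * Nat.card {y // f y = ((1 : T) : T ⧸ M)} := by
        rw [← hs, ← Nat.card_congr (Equiv.sigmaFiberEquiv f), Nat.card_sigma,
          Finset.sum_congr rfl (fun c _ => hcard c), Finset.sum_const, Finset.card_univ,
          ← Nat.card_eq_fintype_card, smul_eq_mul]
        rfl
      have ha1 : 0 < Nat.card {y // f y = ((1 : T) : T ⧸ M)} := by
        have := hne ((1 : T) : T ⧸ M)
        exact Nat.card_pos
      have hb1 : 2 ≤ M.index := by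
        have h4 : M.index ≠ 0 := Subgroup.index_ne_zero_of_finite
        have h5 : M.index ≠ 1 := fun h => hM.1 (Subgroup.index_eq_one.1 h)
        omega
      have hlt : Nat.card {y // f y = ((1 : T) : T ⧸ M)} < s := by
        rw [hsum]
        nlinarith
      have hLcard := card_le_prod (G := M.normalCore) (fun c : T ⧸ M => Equiv.Perm {y // f y = c})
        (fun c => restr (G := M.normalCore) (fun y => f y = c) (hinv c)) (by
          intro l hl
          apply Subtype.ext
          apply Subtype.ext
          apply Equiv.ext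
          intro y
          have h1 := congrArg (fun e : Equiv.Perm {z // f z = f y} => (e ⟨y, rfl⟩).1) (hl (f y))
          exact h1)
      have hLcard2 : Nat.card M.normalCore ≤
          5 ^ ((Nat.card {y // f y = ((1 : T) : T ⧸ M)} - 1) * M.index) := by
        refine hLcard.trans ?_
        have h1 : ∀ c : T ⧸ M,
            Nat.card (restr (G := M.normalCore) (fun y => f y = c) (hinv c)).range ≤
              5 ^ (Nat.card {y // f y = ((1 : T) : T ⧸ M)} - 1) := by
          intro c
          have := hne c
          have h2 := IH {y // f y = c} (by rw [hcard]; exact hlt) M.normalCore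
            (restr (G := M.normalCore) (fun y => f y = c) (hinv c))
          rwa [hcard] at h2
        refine (Finset.prod_le_prod' fun c _ => h1 c).trans ?_
        rw [Finset.prod_const, Finset.card_univ, ← Nat.card_eq_fintype_card, ← pow_mul]
        exact le_rfl
      have hq := quot_bd M hM
      rw [Subgroup.card_eq_card_quotient_mul_card_subgroup M.normalCore]
      refine (Nat.mul_le_mul hq hLcard2).trans ?_
      rw [← pow_add]
      apply Nat.pow_le_pow_right (by norm_num)
      obtain ⟨a, ha⟩ := Nat.exists_eq_succ_of_ne_zero ha1.ne'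
      rw [ha] at hsum ⊢
      rw [hsum]
      have h6 : M.index * a.succ = a * M.index + M.index := by
        rw [Nat.mul_succ, mul_comm]
      rw [h6, Nat.succ_sub_one]
      omega
  · push Not at htr
    obtain ⟨x, y, hxy⟩ := htr
    set p : X → Prop := fun z => ∃ t : T, t • x = z with hp
    have hp1 : ∀ (g : T) (z : X), p z → p (g • z) := by
      rintro g z ⟨t, rfl⟩
      exact ⟨g * t, mul_smul _ _ _⟩
    have hp2 : ∀ (g : T) (z : X), ¬ p z → ¬ p (g • z) := by
      rintro g z hz ⟨t, ht⟩
      apply hz
      refine ⟨g⁻¹ * t, ?_⟩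
      rw [mul_smul, ht, inv_smul_smul]
    have hne1 : Nonempty {z // p z} := ⟨⟨x, 1, one_smul _ _⟩⟩
    have hne2 : Nonempty {z // ¬ p z} := ⟨⟨y, fun ⟨t, ht⟩ => hxy t ht⟩⟩
    have hc1 : 0 < Nat.card {z // p z} := Nat.card_pos
    have hc2 : 0 < Nat.card {z // ¬ p z} := Nat.card_pos
    have hsum : Nat.card {z // p z} + Nat.card {z // ¬ p z} = s := by
      rw [← hs, ← Nat.card_sum]
      exact Nat.card_congr (Equiv.sumCompl p)
    have h1 := card_le_mul (G := T) (restr (G := T) p hp1) (restr (G := T) (fun z => ¬ p z) hp2) (by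
      intro t ht1 ht2
      apply Subtype.ext
      apply Equiv.ext
      intro z
      by_cases hz : p z
      · exact congrArg (fun e : Equiv.Perm {z // p z} => (e ⟨z, hz⟩).1) ht1
      · exact congrArg (fun e : Equiv.Perm {z // ¬ p z} => (e ⟨z, hz⟩).1) ht2)
    refine h1.trans ?_
    refine (Nat.mul_le_mul (IH {z // p z} (by omega) T _)
      (IH {z // ¬ p z} (by omega) T _)).trans ?_
    rw [← pow_add]
    apply Nat.pow_le_pow_right (by norm_num)
    omega

universe u

/-- orders of solvable permutation groups -/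
theorem dix : Pool.Agent.Y552.CT.S_DIX.{u, v} := by
  intro T _ _ _ X _ _ _ _
  have hinj : Function.Injective (MulAction.toPermHom T X) := MulAction.toPerm_injective
  have h1 := perm_bd (Nat.card X) X rfl (MulAction.toPermHom T X).range
    (Group.isSolvable_of_surjective (f := (MulAction.toPermHom T X).rangeRestrict)
      (MulAction.toPermHom T X).rangeRestrict_surjective)
  rwa [← Nat.card_congr (MonoidHom.ofInjective hinj).toEquiv] at h1

end Pool.Agent.Y759.CT
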